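import Pool.Agent.helper10.OM.SpecG

set_option autoImplicit false

namespace Pool.Agent.OM

open Finset Real Pool.Agent.AT Pool.Agent.helper85.FC

theorem GPG_pig {β : Type} [Finite β] (f : ℕ → β) : ∃ b : β, ∀ N : ℕ, ∃ T, N ≤ T ∧ f T = b := by
  obtain ⟨y, hy⟩ := Finite.exists_infinite_fiber f
  refine ⟨y, fun N => ?_⟩
  have hi : (f ⁻¹' {y}).Infinite := Set.infinite_coe_iff.mp hy
  obtain ⟨T, hT, hN⟩ := hi.exists_gt N
  exact ⟨T, hN.le, hT⟩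

theorem GPG_class (q : ℕ) (hq : 1 ≤ q) (P : ℕ → ℤ → Prop) (h : ∀ N : ℕ, ∃ T, N ≤ T ∧ ∃ c : ℤ, P T c) :
    ∃ r : ℕ, ∀ N : ℕ, ∃ T, N ≤ T ∧ ∃ u : ℤ, P T (r + q * u) := by
  choose T hT c hc using h
  have hq' : (0 : ℤ) < q := by exact_mod_cast hq
  let f : ℕ → Fin q := fun N => ⟨(c N % (q : ℤ)).toNat, by
    have h1 := Int.emod_nonneg (c N) hq'.ne'
    have h2 := Int.emod_lt_of_pos (c N) hq'
    omega⟩
  obtain ⟨b, hb⟩ := GPG_pig f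
  refine ⟨b, fun N => ?_⟩
  obtain ⟨N', hN', hf⟩ := hb N
  refine ⟨T N', hN'.trans (hT N'), c N' / (q : ℤ), ?_⟩
  have h1 := Int.emod_nonneg (c N') hq'.ne'
  have h3 : ((b : ℕ) : ℤ) = c N' % (q : ℤ) := by
    rw [← hf]
    show (((c N' % (q : ℤ)).toNat : ℕ) : ℤ) = _
    exact Int.toNat_of_nonneg h1
  have h4 : ((b : ℕ) : ℤ) + q * (c N' / (q : ℤ)) = c N' := by
    rw [h3]
    exact Int.emod_add_mul_ediv _ _
  rw [h4]
  exact hc N'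

theorem GPG_add (a b q m n : ℕ) (c : ℤ) : NR a b q (m + n) c = NR a b q m c + NR a b q n (c + q * m) := by
  classical
  unfold NR
  rw [Finset.card_filter, Finset.card_filter, Finset.card_filter, Finset.sum_range_add]
  congr 1
  apply Finset.sum_congr rfl
  intro t _
  have e : c + (q : ℤ) * (((m + t : ℕ) : ℕ) : ℤ) = c + q * m + q * ((t : ℕ) : ℤ) := by
    push_cast
    ring
  rw [e]

theorem GPG_le (a b q n : ℕ) (c : ℤ) : NR a b q n c ≤ n := by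
  classical
  unfold NR
  exact (Finset.card_filter_le _ _).trans (by rw [card_range])

theorem GPG_mul (a b q r T : ℕ) (x : ℝ) (hx : ∀ u : ℤ, (NR a b q T (r + q * u) : ℝ) ≤ x) (k : ℕ) (u : ℤ) :
    (NR a b q (T * k) (r + q * u) : ℝ) ≤ k * x := by
  induction k with
  | zero =>
      have := GPG_le a b q 0 (r + q * u)
      have h0 : NR a b q (T * 0) (r + q * u) = 0 := by
        rw [Nat.mul_zero]
        omega
      rw [h0]
      simp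
  | succ k ih =>
      rw [Nat.mul_succ, GPG_add]
      have e : (r : ℤ) + q * u + q * ((T * k : ℕ) : ℤ) = r + q * (u + ((T * k : ℕ) : ℤ)) := by ring
      rw [e]
      have := hx (u + ((T * k : ℕ) : ℤ))
      push_cast at this ih ⊢
      linarith

theorem GPG_block (a b q r : ℕ) (ε : ℝ) (hε : 0 < ε)
    (h : ∀ N : ℕ, ∃ T, N ≤ T ∧ ∃ u : ℤ, (1 - ε / 4) * T ≤ (NR a b q T (r + q * u) : ℝ)) (T : ℕ) (hT : 1 ≤ T) :
    ∃ u : ℤ, (1 - ε) * T ≤ (NR a b q T (r + q * u) : ℝ) := by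
  by_contra hcon
  push Not at hcon
  have hT0 : (0 : ℝ) < T := by exact_mod_cast hT
  have hε1 : ε < 1 := by
    by_contra hge
    push Not at hge
    have h1 := hcon 0
    have h2 : (0 : ℝ) ≤ (NR a b q T (r + q * 0) : ℝ) := Nat.cast_nonneg _
    nlinarith
  obtain ⟨N, hN⟩ := exists_nat_gt (4 * T / ε)
  obtain ⟨T₁, hT₁, u, hu⟩ := h N
  have hT₁' : 4 * T < ε * T₁ := by
    have h3 : (N : ℝ) ≤ T₁ := by exact_mod_cast hT₁
    have h4 : 4 * (T : ℝ) / ε < T₁ := lt_of_lt_of_le hN h3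
    rw [div_lt_iff₀ hε] at h4
    linarith
  have hdec : T₁ = T * (T₁ / T) + T₁ % T := (Nat.div_add_mod T₁ T).symm
  have hmod : T₁ % T < T := Nat.mod_lt _ hT
  set k := T₁ / T with hk
  set s := T₁ % T with hs
  have hup : (NR a b q T₁ (r + q * u) : ℝ) ≤ k * ((1 - ε) * T) + T := by
    have e1 : NR a b q T₁ (r + q * u) = NR a b q (T * k) (r + q * u) + NR a b q s (r + q * u + q * ((T * k : ℕ) : ℤ)) := by
      rw [← GPG_add, ← hdec]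
    have e2 := GPG_mul a b q r T ((1 - ε) * T) (fun u => (hcon u).le) k u
    have e3 := GPG_le a b q s (r + q * u + q * ((T * k : ℕ) : ℤ))
    have e4 : ((NR a b q s (r + q * u + q * ((T * k : ℕ) : ℤ)) : ℕ) : ℝ) ≤ T := by
      exact_mod_cast e3.trans hmod.le
    rw [e1]
    push_cast at e4 e2 ⊢
    linarith
  have hkT : (k : ℝ) * T ≤ T₁ := by
    have : T * k ≤ T₁ := by omega
    have h5 : ((T * k : ℕ) : ℝ) ≤ T₁ := by exact_mod_cast this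
    push_cast at h5
    linarith
  have h6 : (1 - ε) * ((k : ℝ) * T) ≤ (1 - ε) * T₁ := mul_le_mul_of_nonneg_left hkT (by linarith)
  nlinarith

theorem GPG_step (F : Finset ℕ) (H : ℕ) (ε : ℝ)
    (T : ℕ) (hT : 1 ≤ T)
    (h : ∃ Y₀ : ℕ, ∀ Y : ℕ, Y₀ ≤ Y → (1 / 6 - ε) * ((#F : ℝ) * Y) ^ 2 ≤
      #{t ∈ VF F Y ×ˢ VF F Y | t.2.1 < t.1.1 ∧ kg (PG (MH H ^ 2) T (BG H)) t.1 t.2 < ε}) :
    ∃ S : Finset (ℕ × ℕ), S ⊆ FF F ∧ (1 / 6 - ε) * (#F : ℝ) ^ 2 ≤ #S ∧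
      ∀ p ∈ S, ∃ c : ℤ, (1 - ε) * T ≤ (NR (rp p.1 p.2).2 (rp p.1 p.2).1 (6 * MH H ^ 3) T c : ℝ) := by
  classical
  obtain ⟨Y₀, hY₀⟩ := h
  set Y : ℕ := Y₀ + 1 with hY
  have hY1 : (0 : ℝ) < Y := by exact_mod_cast (show 0 < Y by omega)
  have hc := hY₀ Y (by omega)
  set A : Finset ((ℕ × ℕ) × (ℕ × ℕ)) :=
    {t ∈ VF F Y ×ˢ VF F Y | t.2.1 < t.1.1 ∧ kg (PG (MH H ^ 2) T (BG H)) t.1 t.2 < ε} with hA
  set S : Finset (ℕ × ℕ) := A.image (fun t => (t.1.1, t.2.1)) with hS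
  have hAmem : ∀ t ∈ A, (t.1.1 ∈ F ∧ t.1.2 < Y) ∧ (t.2.1 ∈ F ∧ t.2.2 < Y) ∧ t.2.1 < t.1.1 ∧
      kg (PG (MH H ^ 2) T (BG H)) t.1 t.2 < ε := by
    intro t ht
    rw [hA, mem_filter, mem_product] at ht
    unfold VF at ht
    rw [mem_product, mem_product, mem_range, mem_range] at ht
    exact ⟨ht.1.1, ht.1.2, ht.2.1, ht.2.2⟩
  refine ⟨S, ?_, ?_, ?_⟩
  · intro p hp
    rw [hS, mem_image] at hp
    obtain ⟨t, ht, rfl⟩ := hp
    obtain ⟨g1, g2, g3, g4⟩ := hAmem t ht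
    unfold FF
    rw [mem_filter, mem_product]
    exact ⟨⟨g1.1, g2.1⟩, g3⟩
  · have hcard : #A ≤ #S * (Y * Y) := by
      have e : #(S ×ˢ (range Y ×ˢ range Y)) = #S * (Y * Y) := by
        rw [card_product, card_product, card_range]
      rw [← e]
      apply card_le_card_of_injOn (fun t => ((t.1.1, t.2.1), (t.1.2, t.2.2)))
      · intro t ht
        have ht' : t ∈ A := ht
        obtain ⟨g1, g2, g3, g4⟩ := hAmem t ht'
        simp only [coe_product, Set.mem_prod, mem_coe, mem_range]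
        refine ⟨?_, g1.2, g2.2⟩
        rw [hS, mem_image]
        exact ⟨t, ht', rfl⟩
      · intro t _ t' _ he
        simp only [Prod.mk.injEq] at he
        obtain ⟨⟨k1, k2⟩, k3, k4⟩ := he
        exact Prod.ext (Prod.ext k1 k3) (Prod.ext k2 k4)
    have hcard' : (#A : ℝ) ≤ #S * (Y * Y) := by exact_mod_cast hcard
    have h2 : ((1 / 6 - ε) * (#F : ℝ) ^ 2) * ((Y : ℝ) * Y) ≤ (#S : ℝ) * ((Y : ℝ) * Y) := by
      have e : ((1 / 6 - ε) * (#F : ℝ) ^ 2) * ((Y : ℝ) * Y) = (1 / 6 - ε) * ((#F : ℝ) * Y) ^ 2 := by ring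
      rw [e]
      exact hc.trans hcard'
    exact le_of_mul_le_mul_right h2 (by positivity)
  · intro p hp
    rw [hS, mem_image] at hp
    obtain ⟨t, ht, rfl⟩ := hp
    obtain ⟨g1, g2, g3, g4⟩ := hAmem t ht
    unfold kg at g4
    rw [if_pos g3] at g4
    set r := rp t.1.1 t.2.1 with hr
    set v : ℤ := (r.2 : ℤ) * t.1.2 - (r.1 : ℤ) * t.2.2 with hv
    refine ⟨(r.2 : ℤ) - r.1 + 6 * (MH H : ℤ) * v, ?_⟩
    have hT0 : (0 : ℝ) < T := by exact_mod_cast hT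
    unfold PG sm at g4
    rw [div_lt_iff₀ hT0] at g4
    have hsum : ∑ τ ∈ range T, BG H r (v + ((MH H ^ 2 : ℕ) : ℤ) * τ) =
        T - (NR r.2 r.1 (6 * MH H ^ 3) T ((r.2 : ℤ) - r.1 + 6 * (MH H : ℤ) * v) : ℝ) := by
      unfold NR
      rw [Finset.card_filter]
      push_cast
      have e0 : (T : ℝ) = ∑ τ ∈ range T, (1 : ℝ) := by simp
      rw [e0, ← Finset.sum_sub_distrib]
      apply Finset.sum_congr rfl
      intro τ _
      unfold BG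
      have e : (r.2 : ℤ) - r.1 + 6 * (MH H : ℤ) * (v + (MH H : ℤ) ^ 2 * (τ : ℤ)) =
          (r.2 : ℤ) - r.1 + 6 * (MH H : ℤ) * v + 6 * (MH H : ℤ) ^ 3 * (τ : ℤ) := by ring
      rw [e]
      split_ifs <;> norm_num
    have g5 : ∑ τ ∈ range T, BG H r (v + ((MH H ^ 2 : ℕ) : ℤ) * τ) < ε * T := g4
    rw [hsum] at g5
    show (1 - ε) * (T : ℝ) ≤ (NR r.2 r.1 (6 * MH H ^ 3) T ((r.2 : ℤ) - r.1 + 6 * (MH H : ℤ) * v) : ℝ)
    linarith

theorem GPG (h1 : GOP_stmt) : GPG_stmt := by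
  classical
  intro hQ ε hε
  obtain ⟨η, hη, hη'⟩ := h1 hQ (ε / 4) (by linarith)
  refine ⟨η, hη, ?_⟩
  intro F hF hQF
  set H : ℕ := F.sup id with hH
  have hFH : ∀ s ∈ F, 1 ≤ s ∧ s ≤ H := fun s hs => ⟨hF s hs, Finset.le_sup (f := id) hs⟩
  have hstep : ∀ T : ℕ, 1 ≤ T → ∃ S : Finset (ℕ × ℕ), S ⊆ FF F ∧ (1 / 6 - ε / 4) * (#F : ℝ) ^ 2 ≤ #S ∧
      ∀ p ∈ S, ∃ c : ℤ, (1 - ε / 4) * T ≤ (NR (rp p.1 p.2).2 (rp p.1 p.2).1 (6 * MH H ^ 3) T c : ℝ) :=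
    fun T hT => GPG_step F H (ε / 4) T hT (hη' F H hFH hQF T hT)
  have hq : 1 ≤ 6 * MH H ^ 3 := by
    have : 0 < MH H := Nat.factorial_pos _
    have := pow_pos this 3
    omega
  choose! S hS1 hS2 hS3 using hstep
  let f : ℕ → (FF F).powerset := fun n => ⟨S (n + 1), mem_powerset.mpr (hS1 (n + 1) (by omega))⟩
  obtain ⟨b, hb⟩ := GPG_pig f
  have hb' : ∀ N : ℕ, ∃ T, N ≤ T ∧ 1 ≤ T ∧ S T = b.1 := by
    intro N
    obtain ⟨n, hn, hfn⟩ := hb N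
    refine ⟨n + 1, by omega, by omega, ?_⟩
    rw [← hfn]
  obtain ⟨T₀, _, hT₀, hST₀⟩ := hb' 0
  refine ⟨b.1, ?_, ?_, ?_⟩
  · rw [← hST₀]
    exact hS1 T₀ hT₀
  · intro p hp
    have hP : ∀ N : ℕ, ∃ T, N ≤ T ∧ ∃ c : ℤ,
        (1 - ε / 4) * T ≤ (NR (rp p.1 p.2).2 (rp p.1 p.2).1 (6 * MH H ^ 3) T c : ℝ) := by
      intro N
      obtain ⟨T, hNT, hT, hST⟩ := hb' N
      exact ⟨T, hNT, hS3 T hT p (by rw [hST]; exact hp)⟩
    obtain ⟨r, hr⟩ := GPG_class (6 * MH H ^ 3) hq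
      (fun T c => (1 - ε / 4) * T ≤ (NR (rp p.1 p.2).2 (rp p.1 p.2).1 (6 * MH H ^ 3) T c : ℝ)) hP
    unfold GQ
    rw [Nat.gcd_comm p.2 p.1]
    exact ⟨6 * MH H ^ 3, r, hq, fun T hT =>
      GPG_block (rp p.1 p.2).2 (rp p.1 p.2).1 (6 * MH H ^ 3) r ε hε hr T hT⟩
  · rw [← hST₀]
    refine le_trans ?_ (hS2 T₀ hT₀)
    apply mul_le_mul_of_nonneg_right _ (by positivity)
    linarith

end Pool.Agent.OM
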