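import Pool.Agent.helper10.OM.Spec

set_option autoImplicit false

namespace Pool.Agent.OM

open Finset Real Pool.Agent.AT Pool.Agent.helper85.FC

theorem UBD_sp (M T Y : ℕ) (φ : ℕ → ℤ → ℝ) (hφ : Sp 0 Y φ) :
    Sp (M * T) Y (fun i x => φ i x - sm M T (φ i) x) := by
  intro i x hx
  simp only [XX, mem_Ico, not_and, not_lt] at hx
  have hz : ∀ z : ℤ, (z < 0 ∨ (Y : ℤ) ≤ z) → φ i z = 0 := by
    intro z hz
    apply hφ i z
    simp only [XX, mem_Ico, not_and, not_lt]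
    intro h
    push_cast at h ⊢
    rcases hz with hz | hz
    · omega
    · omega
  have h1 : φ i x = 0 := by
    apply hz
    by_cases h : -((M * T : ℕ) : ℤ) ≤ x
    · right
      have := hx h
      have h0 : (0 : ℤ) ≤ ((M * T : ℕ) : ℤ) := Int.natCast_nonneg _
      omega
    · left
      have h0 : (0 : ℤ) ≤ ((M * T : ℕ) : ℤ) := Int.natCast_nonneg _
      omega
  have h2 : sm M T (φ i) x = 0 := by
    unfold sm
    rw [Finset.sum_eq_zero, zero_div]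
    intro τ hτ
    apply hz
    have hτ' : τ < T := mem_range.mp hτ
    have h3 : (M : ℤ) * τ ≤ ((M * T : ℕ) : ℤ) := by
      push_cast
      exact mul_le_mul_of_nonneg_left (by exact_mod_cast hτ'.le) (Int.natCast_nonneg _)
    have h4 : (0 : ℤ) ≤ (M : ℤ) * τ := by positivity
    by_cases h : -((M * T : ℕ) : ℤ) ≤ x
    · right
      have := hx h
      omega
    · left
      omega
  simp only [h1, h2, sub_zero]

theorem UBD_pt (h1 : GEO_stmt) (h2 : SMF_stmt) (h5 : SMO_stmt) (a b L T D R Y : ℕ) (ha : 1 ≤ a) (hb : 1 ≤ b) (hL : 1 ≤ L)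
    (hT : 1 ≤ T) (hD : 1 ≤ D) (ρ : ℝ) (hρ : 0 < ρ) (hDρ : (L : ℝ) ≤ (2 * D * ρ) ^ 2)
    (hρ' : (2 * π * T * (MM1 a b L * (1 + (b : ℝ) ^ L) * ρ)) ^ 2 * L ≤ 1) (hR : MM1 a b L * T ≤ R)
    (φ : ℕ → ℤ → ℝ) (hφ : Sp 0 Y φ) (α β : ℝ) :
    Ph L (XX R Y) (fun i x => φ i x - sm (MM1 a b L) T (φ i) x) α *
      ∑ m ∈ Ico 1 L, FD D ((a : ℝ) ^ m * α + (b : ℝ) ^ m * β) ≤ 8 * Ph L (XX R Y) φ α := by
  have hPh0 : 0 ≤ Ph L (XX R Y) φ α := Finset.sum_nonneg fun i _ => by positivity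
  have hPu0 : 0 ≤ Ph L (XX R Y) (fun i x => φ i x - sm (MM1 a b L) T (φ i) x) α :=
    Finset.sum_nonneg fun i _ => by positivity
  have hS0 : 0 ≤ ∑ m ∈ Ico 1 L, FD D ((a : ℝ) ^ m * α + (b : ℝ) ^ m * β) :=
    Finset.sum_nonneg fun m _ => (h1 D _).1
  have hL1 : (1 : ℝ) ≤ L := by exact_mod_cast hL
  by_cases hN : Near (MM1 a b L * α) (MM1 a b L * (1 + (b : ℝ) ^ L) * ρ)
  · have hr0 : 0 ≤ MM1 a b L * (1 + (b : ℝ) ^ L) * ρ := by positivity
    have hPu : Ph L (XX R Y) (fun i x => φ i x - sm (MM1 a b L) T (φ i) x) α ≤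
        (2 * π * T * (MM1 a b L * (1 + (b : ℝ) ^ L) * ρ)) ^ 2 * Ph L (XX R Y) φ α := by
      unfold Ph
      rw [Finset.mul_sum]
      apply Finset.sum_le_sum
      intro i _
      exact (h5 (MM1 a b L) T R Y hT hR (φ i) (hφ i) α).2 _ hr0 hN
    have hS : ∑ m ∈ Ico 1 L, FD D ((a : ℝ) ^ m * α + (b : ℝ) ^ m * β) ≤ L := by
      calc ∑ m ∈ Ico 1 L, FD D ((a : ℝ) ^ m * α + (b : ℝ) ^ m * β) ≤ ∑ m ∈ Ico 1 L, (1 : ℝ) :=
            Finset.sum_le_sum fun m _ => (h1 D _).2.1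
        _ = ((L - 1 : ℕ) : ℝ) := by simp
        _ ≤ L := by exact_mod_cast Nat.sub_le _ _
    calc _ ≤ ((2 * π * T * (MM1 a b L * (1 + (b : ℝ) ^ L) * ρ)) ^ 2 * Ph L (XX R Y) φ α) * L := by
          apply mul_le_mul hPu hS hS0
          positivity
      _ = ((2 * π * T * (MM1 a b L * (1 + (b : ℝ) ^ L) * ρ)) ^ 2 * L) * Ph L (XX R Y) φ α := by ring
      _ ≤ 1 * Ph L (XX R Y) φ α := mul_le_mul_of_nonneg_right hρ' hPh0
      _ ≤ 8 * Ph L (XX R Y) φ α := by linarith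
  · have hS := h2 a b L D ρ ha hb hL hD hρ hDρ α β hN
    have hPu : Ph L (XX R Y) (fun i x => φ i x - sm (MM1 a b L) T (φ i) x) α ≤ 4 * Ph L (XX R Y) φ α := by
      unfold Ph
      rw [Finset.mul_sum]
      apply Finset.sum_le_sum
      intro i _
      exact (h5 (MM1 a b L) T R Y hT hR (φ i) (hφ i) α).1
    calc _ ≤ (4 * Ph L (XX R Y) φ α) * 2 := mul_le_mul hPu hS hS0 (by positivity)
      _ = 8 * Ph L (XX R Y) φ α := by ring

theorem UBD (h1 : GEO_stmt) (h2 : SMF_stmt) (h3 : CSQ_stmt) (h4 : UFT_stmt) (h5 : SMO_stmt) (h6 : PHS_stmt) :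
    UBD_stmt := by
  intro a b L T ha hb hL hT
  set M : ℕ := MM1 a b L with hM
  have hL1 : (1 : ℝ) ≤ L := by exact_mod_cast hL
  have hT1 : (1 : ℝ) ≤ T := by exact_mod_cast hT
  have hM0 : (0 : ℝ) ≤ M := Nat.cast_nonneg _
  set ρ : ℝ := 1 / (2 * π * T * (M + 1) * (1 + (b : ℝ) ^ L) * L) with hρd
  have hρ : 0 < ρ := by
    rw [hρd]
    have := Real.pi_pos
    positivity
  obtain ⟨D₀, hD₀⟩ := exists_nat_ge ((L : ℝ) / (2 * ρ))
  set D : ℕ := D₀ + 1 with hDd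
  have hD : 1 ≤ D := by omega
  have hDρ : (L : ℝ) ≤ 2 * D * ρ := by
    have h7 : (L : ℝ) / (2 * ρ) ≤ D := by
      refine hD₀.trans ?_
      rw [hDd]
      push_cast
      linarith
    rw [div_le_iff₀ (by positivity)] at h7
    linarith
  have hDρ2 : (L : ℝ) ≤ (2 * D * ρ) ^ 2 := by nlinarith
  have hρ' : (2 * π * T * (M * (1 + (b : ℝ) ^ L) * ρ)) ^ 2 * L ≤ 1 := by
    have e1 : 2 * π * T * (M * (1 + (b : ℝ) ^ L) * ρ) = M / ((M + 1) * L) := by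
      rw [hρd]
      have := Real.pi_pos
      field_simp
    rw [e1]
    have e2 : (M : ℝ) / ((M + 1) * L) ≤ 1 / L := by
      rw [div_le_div_iff₀ (by positivity) (by positivity)]
      nlinarith
    have e3 : 0 ≤ (M : ℝ) / ((M + 1) * L) := by positivity
    calc ((M : ℝ) / ((M + 1) * L)) ^ 2 * L ≤ (1 / L) ^ 2 * L :=
          mul_le_mul_of_nonneg_right (pow_le_pow_left₀ e3 e2 2) (by positivity)
      _ = 1 / L := by field_simp
      _ ≤ 1 := by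
          rw [div_le_one (by positivity)]
          exact hL1
  set R : ℕ := 3 * (M * T) + (a ^ L + b ^ L) * D with hRd
  refine ⟨R, 2 * R, by omega, ?_⟩
  intro Y hY K φ ψ hK hφ1 hψ1 hφ hψ
  have hMR : M * T ≤ R := by
    have := Nat.zero_le ((a ^ L + b ^ L) * D)
    omega
  have hcond : ∀ m < L, M * T + a ^ m * D ≤ R ∧ M * T + b ^ m * D ≤ R := by
    intro m hm
    have ea : a ^ m ≤ a ^ L + b ^ L := (Nat.pow_le_pow_right ha hm.le).trans (Nat.le_add_right _ _)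
    have eb : b ^ m ≤ a ^ L + b ^ L := (Nat.pow_le_pow_right hb hm.le).trans (Nat.le_add_left _ _)
    have ea' := Nat.mul_le_mul_right D ea
    have eb' := Nat.mul_le_mul_right D eb
    constructor
    · omega
    · omega
  have hφu : Sp (M * T) Y (fun i x => φ i x - sm M T (φ i) x) := UBD_sp M T Y φ hφ
  have hψ' : Sp (M * T) Y ψ := by
    intro i x hx
    apply hψ i x
    intro hx'
    apply hx
    simp only [XX, mem_Ico] at hx' ⊢
    have h0 : (0 : ℤ) ≤ ((M * T : ℕ) : ℤ) := Int.natCast_nonneg _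
    push_cast at hx' h0 ⊢
    constructor
    · linarith [hx'.1]
    · linarith [hx'.2]
  set φu : ℕ → ℤ → ℝ := fun i x => φ i x - sm M T (φ i) x with hφud
  set Q : ℕ := Y + 2 * R + 1 with hQd
  have hQ1 : 1 ≤ Q := by omega
  have hQ0 : (0 : ℝ) < Q := by exact_mod_cast hQ1
  have hYQ : Y + 2 * R ≤ Q := by omega
  set S : ℝ := ∑ m ∈ Ico 1 L, ∑ x ∈ XX R Y, ∑ y ∈ XX R Y, K m ((b : ℤ) ^ m * x - (a : ℤ) ^ m * y) *
    gm L φu ψ m x y with hS
  have hc := h3 a b L D (M * T) R Y hD hcond K hK φu ψ hφu hψ'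
  rw [← hS] at hc
  set A : ℕ → ℝ := fun m => ∑ x ∈ XX R Y, ∑ y ∈ XX R Y,
        ((∑ d ∈ range D, gm L φu ψ m (x + (a : ℤ) ^ m * d) (y + (b : ℤ) ^ m * d)) / D) ^ 2 with hA
  have hc' : S ^ 2 ≤ L * ((Y : ℝ) + 2 * R) ^ 2 * ∑ m ∈ Ico 1 L, A m := hc
  have hu : ∀ m ∈ Ico 1 L, (Q : ℝ) ^ 2 * A m ≤ ∑ k ∈ range Q, ∑ l ∈ range Q, Ph L (XX R Y) φu ((k : ℝ) / Q) *
      Ph L (XX R Y) ψ ((l : ℝ) / Q) * FD D ((a : ℝ) ^ m * ((k : ℝ) / Q) + (b : ℝ) ^ m * ((l : ℝ) / Q)) := by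
    intro m hm
    have hm' := (mem_Ico.mp hm).2
    exact h4 a b L D (M * T) R Y Q m hD hQ1 hYQ (hcond m hm').1 (hcond m hm').2 φu ψ hφu hψ'
  have hP0 : ∀ (f : ℕ → ℤ → ℝ) (α : ℝ), 0 ≤ Ph L (XX R Y) f α := fun f α => Finset.sum_nonneg fun i _ => by positivity
  have hsum : (Q : ℝ) ^ 2 * ∑ m ∈ Ico 1 L, A m ≤ 8 * (Q * (L * Y)) * (Q * (L * Y)) := by
    rw [Finset.mul_sum]
    calc ∑ m ∈ Ico 1 L, (Q : ℝ) ^ 2 * A m ≤ ∑ m ∈ Ico 1 L, ∑ k ∈ range Q, ∑ l ∈ range Q,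
            Ph L (XX R Y) φu ((k : ℝ) / Q) * Ph L (XX R Y) ψ ((l : ℝ) / Q) *
              FD D ((a : ℝ) ^ m * ((k : ℝ) / Q) + (b : ℝ) ^ m * ((l : ℝ) / Q)) := Finset.sum_le_sum hu
      _ = ∑ k ∈ range Q, ∑ l ∈ range Q, Ph L (XX R Y) ψ ((l : ℝ) / Q) * (Ph L (XX R Y) φu ((k : ℝ) / Q) *
            ∑ m ∈ Ico 1 L, FD D ((a : ℝ) ^ m * ((k : ℝ) / Q) + (b : ℝ) ^ m * ((l : ℝ) / Q))) := by
          rw [Finset.sum_comm]
          apply Finset.sum_congr rfl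
          intro k _
          rw [Finset.sum_comm]
          apply Finset.sum_congr rfl
          intro l _
          rw [Finset.mul_sum, Finset.mul_sum]
          apply Finset.sum_congr rfl
          intro m _
          ring
      _ ≤ ∑ k ∈ range Q, ∑ l ∈ range Q, Ph L (XX R Y) ψ ((l : ℝ) / Q) * (8 * Ph L (XX R Y) φ ((k : ℝ) / Q)) := by
          apply Finset.sum_le_sum
          intro k _
          apply Finset.sum_le_sum
          intro l _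
          exact mul_le_mul_of_nonneg_left (UBD_pt h1 h2 h5 a b L T D R Y ha hb hL hT hD ρ hρ hDρ2 hρ' hMR φ hφ _ _)
            (hP0 ψ _)
      _ = 8 * (∑ k ∈ range Q, Ph L (XX R Y) φ ((k : ℝ) / Q)) * (∑ l ∈ range Q, Ph L (XX R Y) ψ ((l : ℝ) / Q)) := by
          rw [mul_assoc, Finset.sum_mul_sum, Finset.mul_sum]
          apply Finset.sum_congr rfl
          intro k _
          rw [Finset.mul_sum]
          apply Finset.sum_congr rfl
          intro l _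
          ring
      _ ≤ 8 * (Q * (L * Y)) * (Q * (L * Y)) := by
          have e1 := h6 L R Y Q hQ1 hYQ φ hφ1 hφ
          have e2 := h6 L R Y Q hQ1 hYQ ψ hψ1 hψ
          apply mul_le_mul
          · linarith
          · exact e2
          · exact Finset.sum_nonneg fun l _ => hP0 ψ _
          · positivity
  have hsum2 : ∑ m ∈ Ico 1 L, A m ≤ 8 * (L * Y) ^ 2 := by
    have e : (Q : ℝ) ^ 2 * ∑ m ∈ Ico 1 L, A m ≤ (Q : ℝ) ^ 2 * (8 * (L * Y) ^ 2) := by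
      refine hsum.trans (le_of_eq ?_)
      ring
    exact le_of_mul_le_mul_left e (by positivity)
  have hYR : (Y : ℝ) + 2 * R ≤ 2 * Y := by
    have : ((2 * R : ℕ) : ℝ) ≤ Y := by exact_mod_cast hY
    push_cast at this
    linarith
  have hS2 : S ^ 2 ≤ 32 * (L : ℝ) ^ 3 * (Y : ℝ) ^ 4 := by
    calc S ^ 2 ≤ L * ((Y : ℝ) + 2 * R) ^ 2 * ∑ m ∈ Ico 1 L, A m := hc'
      _ ≤ L * ((Y : ℝ) + 2 * R) ^ 2 * (8 * (L * Y) ^ 2) := mul_le_mul_of_nonneg_left hsum2 (by positivity)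
      _ ≤ L * (2 * Y) ^ 2 * (8 * (L * Y) ^ 2) := by
          apply mul_le_mul_of_nonneg_right _ (by positivity)
          apply mul_le_mul_of_nonneg_left _ (by positivity)
          exact pow_le_pow_left₀ (by positivity) hYR 2
      _ = 32 * (L : ℝ) ^ 3 * (Y : ℝ) ^ 4 := by ring
  apply abs_le_of_sq_le_sq _ (by positivity)
  calc S ^ 2 ≤ 32 * (L : ℝ) ^ 3 * (Y : ℝ) ^ 4 := hS2
    _ ≤ 36 * (L : ℝ) ^ 3 * (Y : ℝ) ^ 4 := by
        apply mul_le_mul_of_nonneg_right _ (by positivity)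
        apply mul_le_mul_of_nonneg_right _ (by positivity)
        norm_num
    _ = (6 * (L * √L) * (Y : ℝ) ^ 2) ^ 2 := by
        have : (√(L : ℝ)) ^ 2 = L := Real.sq_sqrt (by positivity)
        calc 36 * (L : ℝ) ^ 3 * (Y : ℝ) ^ 4 = 36 * (L : ℝ) ^ 2 * (L : ℝ) * (Y : ℝ) ^ 4 := by ring
          _ = 36 * (L : ℝ) ^ 2 * (√(L : ℝ)) ^ 2 * (Y : ℝ) ^ 4 := by rw [this]
          _ = _ := by ring

end Pool.Agent.OM
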